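import Pool.Agent.H49.CL.Targets
import Pool.Agent.H57.CN.Basics
import Pool.Agent.H44.FB.Basics

/-!
# Chains of equivalence relations, endomorphisms: row REX
-/

set_option autoImplicit false
set_option linter.unusedVariables false

namespace Pool.Agent.H17.CLR

open Pool.Agent.H68.BP Pool.Agent.H58.SF Pool.Agent.H53.NR
open Pool.Agent.H57.AR (tp ty Ty)
open Pool.Agent.H57.EQ (Cx)
open Pool.Agent.H44.KR (Tyi TpOn)
open Pool.Agent.H44.FB (CptC Loc tpo_comp tyi_on)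
open Pool.Agent.H57.CN (lv_tp tp_comp)
open Pool.Agent.H57.LH (tp_iff)
open Pool.Agent.H72.CH
open Pool.Agent.H49.CL
open Function

variable {V : Type} {ρ σ : Sig}

/-- all finite sets have images with types in `R` -/
def Dom (𝔸 : Str σ V) (𝔹 : Str ρ V) (R : Set (Ty ρ (Fin 2))) : Prop :=
  ∀ (n : ℕ) (G : Fin n → V), ∃ ψ : Fin n → V, Cx 𝔸 (fun _ : Unit => G) ψ ∧
    ∀ a b, tp 𝔹 ![ψ a, ψ b] ∈ R

theorem exists_min (𝔸 : Str σ V) (𝔹 : Str ρ V) :
    ∃ R, Dom 𝔸 𝔹 R ∧ ∀ R', Dom 𝔸 𝔹 R' → R' ⊆ R → R' = R := by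
  classical
  have hfin : Finite (Ty ρ (Fin 2)) := by
    unfold Ty Str
    infer_instance
  have h1 : ∃ k, ∃ R, Dom 𝔸 𝔹 R ∧ R.ncard = k :=
    ⟨_, Set.univ, fun n G => ⟨G, fun l z hz => hz (), fun a b => Set.mem_univ _⟩, rfl⟩
  obtain ⟨R, hR, hRk⟩ := Nat.find_spec h1
  refine ⟨R, hR, fun R' hR' hs => ?_⟩
  have h2 := Nat.find_min' h1 ⟨R', hR', rfl⟩
  rw [← hRk] at h2
  exact Set.eq_of_subset_of_ncard_le hs h2 (Set.toFinite _)

theorem swap_tp (𝔹 : Str ρ V) {x y x' y' : V} (h : tp 𝔹 ![x, y] = tp 𝔹 ![x', y']) :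
    tp 𝔹 ![y, x] = tp 𝔹 ![y', x'] := by
  have h1 := tp_comp h (![1, 0] : Fin 2 → Fin 2)
  have h2 : ∀ a b : V, (fun i => (![a, b] : Fin 2 → V) ((![1, 0] : Fin 2 → Fin 2) i)) = ![b, a] := by
    intro a b
    funext i
    fin_cases i <;> rfl
  rw [h2, h2] at h1
  exact h1

theorem rex_fin (𝔹 : Str ρ V) (lv : V → V → ℕ) (𝔸 : Str σ V) (hT : Tyi 𝔸 𝔹)
    (hX : RamX 𝔸 𝔹 lv) {R : Set (Ty ρ (Fin 2))} (hR : Dom 𝔸 𝔹 R) (Y : Finset V) :
    ∃ F : V → V, Loc 𝔸 Y F ∧ (∀ x ∈ Y, ∀ y ∈ Y, lv (F x) (F y) = lv x y) ∧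
      ∀ x ∈ Y, ∀ y ∈ Y, tp 𝔹 ![F x, F y] ∈ R := by
  classical
  let e := Y.equivFin
  obtain ⟨k, y, hy⟩ := hX Y.card (fun a => (e.symm a).1)
  obtain ⟨ψ, h1, h2⟩ := hR k y
  obtain ⟨φ, h3, h4⟩ := hy ψ h1
  let F : V → V := fun v => if hv : v ∈ Y then ψ (φ (e ⟨v, hv⟩)) else v
  have hF : ∀ v (hv : v ∈ Y), F v = ψ (φ (e ⟨v, hv⟩)) := fun v hv => dif_pos hv
  refine ⟨F, ?_, ?_, ?_⟩
  · intro l z hz hp
    have h5 : (fun i => F (z i)) = fun i => ψ (φ (e ⟨z i, hz i⟩)) := funext fun i => hF _ (hz i)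
    rw [h5]
    refine h1 l (fun i => φ (e ⟨z i, hz i⟩)) fun _ => ?_
    refine hT l z _ hp ?_
    have h6 := tp_comp h3 (fun i => e ⟨z i, hz i⟩)
    rw [h6]
    have h7 : (fun i => (e.symm (e ⟨z i, hz i⟩)).1) = z := by
      funext i
      rw [Equiv.symm_apply_apply]
    rw [h7]
  · intro a ha b hb
    rw [hF a ha, hF b hb, h4]
    rw [Equiv.symm_apply_apply, Equiv.symm_apply_apply]
  · intro a ha b hb
    rw [hF a ha, hF b hb]
    exact h2 _ _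

theorem pf_REX : T_REX := by
  classical
  intro V ρ σ 𝔹 m lv 𝔸 hV hT hC hX
  obtain ⟨R, hR, hmin⟩ := exists_min 𝔸 𝔹
  obtain ⟨v₀⟩ := hV.ne
  have hcnt : Countable V := hV.cnt
  refine ⟨R, ?_, ?_, ?_⟩
  · have h1 : {τ | τ ∈ R ∧ ∀ x y, tp 𝔹 ![x, y] = τ → tp 𝔹 ![y, x] ∈ R} = R := by
      refine hmin _ ?_ fun τ hτ => hτ.1
      intro n G
      obtain ⟨ψ, h1, h2⟩ := hR n G
      refine ⟨ψ, h1, fun a b => ⟨h2 a b, fun x y hxy => ?_⟩⟩
      rw [swap_tp 𝔹 hxy]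
      exact h2 b a
    intro x y hxy
    rw [← h1] at hxy
    exact hxy.2 x y rfl
  · obtain ⟨f, -, hf⟩ := hC V ∅ (fun _ => v₀)
      (fun Y F => Loc 𝔸 Y F ∧ (∀ x ∈ Y, ∀ y ∈ Y, lv (F x) (F y) = lv x y) ∧
        ∀ x ∈ Y, ∀ y ∈ Y, tp 𝔹 ![F x, F y] ∈ R)
      (by
        intro Y
        obtain ⟨F, hF⟩ := rex_fin 𝔹 lv 𝔸 hT hX hR Y
        exact ⟨F, hF, fun x hx => absurd hx (Finset.notMem_empty x)⟩)
      (by
        rintro Y Y' F hY ⟨h1, h2, h3⟩
        exact ⟨fun l z hz hp => h1 l z (fun i => hY (hz i)) hp,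
          fun x hx y hy => h2 x (hY hx) y (hY hy), fun x hx y hy => h3 x (hY hx) y (hY hy)⟩)
      (by
        rintro Y F F' ⟨h1, h2, h3⟩ hFF
        have h4 : ∀ w w', w ∈ Y → w' ∈ Y → tp 𝔹 ![F w, F w'] = tp 𝔹 ![F' w, F' w'] := by
          intro w w' hw hw'
          have h4 := tpo_comp hFF (![w, w'] : Fin 2 → V) (by
            intro i
            fin_cases i
            · exact hw
            · exact hw')
          have h5 : ∀ G : V → V, (fun i => G ((![w, w'] : Fin 2 → V) i)) = ![G w, G w'] := by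
            intro G
            funext i
            fin_cases i <;> rfl
          rw [h5, h5] at h4
          exact h4
        refine ⟨fun l z hz hp => tyi_on hT hFF l z hz (h1 l z hz hp), fun x hx y hy => ?_,
          fun x hx y hy => ?_⟩
        · rw [← h2 x hx y hy]
          exact (hV.inv _ _ (h4 x y hx hy)).symm
        · rw [← h4 x y hx hy]
          exact h3 x hx y hy)
    refine ⟨f, ?_, ?_, ?_⟩
    · intro l x hx
      exact (hf (Finset.univ.image x)).1 l x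
        (fun k => Finset.mem_image_of_mem _ (Finset.mem_univ k)) hx
    · intro x y
      exact (hf {x, y}).2.1 x (by simp) y (by simp)
    · intro x y
      exact (hf {x, y}).2.2 x (by simp) y (by simp)
  · intro τ hτ
    by_contra hcon
    have h1 : Dom 𝔸 𝔹 (R \ {τ}) := by
      intro n G
      by_contra hn
      apply hcon
      refine ⟨n, G, fun ψ hψ hall => ?_⟩
      by_contra hno
      apply hn
      refine ⟨ψ, hψ, fun a b => ⟨hall a b, fun he => hno ⟨a, b, he⟩⟩⟩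
    have h2 := hmin _ h1 Set.diff_subset
    rw [← h2] at hτ
    exact hτ.2 rfl

end Pool.Agent.H17.CLR
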